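import Pool.Agent.helper62.MS.SpecG

/-!
# Row ms:SS1 (MP_07c750): Schur's bound over the boxes
-/

set_option autoImplicit false

open scoped MatrixGroups ContDiff Topology UpperHalfPlane ComplexConjugate
open UpperHalfPlane MeasureTheory Filter Set

namespace Pool.Agent.MS

open Pool.Agent.RS

theorem SS1_count (Γ : Subgroup SL(2, ℝ)) (hΓ : QU.SurfaceGroup Γ) : Countable Γ := by
  classical
  have h : (Set.univ : Set Γ) ⊆ ⋃ n : ℕ,
      {γ : Γ | ∃ z ∈ (compactCovering ℍ n ∪ {UpperHalfPlane.I}), γ • z ∈ (compactCovering ℍ n ∪ {UpperHalfPlane.I})} := by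
    intro γ _
    have h1 : γ • UpperHalfPlane.I ∈ ⋃ n, compactCovering ℍ n := by
      rw [iUnion_compactCovering]
      exact Set.mem_univ _
    obtain ⟨n, hn⟩ := Set.mem_iUnion.mp h1
    exact Set.mem_iUnion.mpr ⟨n, UpperHalfPlane.I, Or.inr rfl, Or.inl hn⟩
  rw [← Set.countable_univ_iff]
  refine Set.Countable.mono h (Set.countable_iUnion fun n => ?_)
  exact (hΓ.discrete _ ((isCompact_compactCovering ℍ n).union isCompact_singleton)).countable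

theorem SS1_ent (i j : Fin 2) : Continuous fun g : SL(2, ℝ) => g.1 i j :=
  continuous_subtype_val.matrix_elem i j

theorem SS1_E3 : MeasurableSet {k : SL(2, ℝ) | ∀ i j, |k.1 i j| ≤ 3} := by
  have h : {k : SL(2, ℝ) | ∀ i j, |k.1 i j| ≤ 3} = ⋂ i, ⋂ j, {k : SL(2, ℝ) | |k.1 i j| ≤ 3} := by
    ext k
    simp only [mem_ofPred_eq, mem_iInter]
  rw [h]
  exact (isClosed_iInter fun i => isClosed_iInter fun j =>
    isClosed_le (SS1_ent i j).abs continuous_const).measurableSet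

theorem SS1_sheet (Γ : Subgroup SL(2, ℝ)) (hc : Countable Γ) (a b c : ℝ) (y h : SL(2, ℝ)) :
    MeasurableSet {k : SL(2, ℝ) | ∃ γ : Γ, bq a b c (y⁻¹ * (γ : SL(2, ℝ)) * (h * k))} := by
  have he : {k : SL(2, ℝ) | ∃ γ : Γ, bq a b c (y⁻¹ * (γ : SL(2, ℝ)) * (h * k))} =
      ⋃ γ : Γ, {k : SL(2, ℝ) | bq a b c (y⁻¹ * (γ : SL(2, ℝ)) * (h * k))} := by
    ext k
    simp only [mem_ofPred_eq, mem_iUnion]
  rw [he]
  refine MeasurableSet.iUnion fun γ => IsClosed.measurableSet ?_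
  have hm : Continuous fun k : SL(2, ℝ) => y⁻¹ * (γ : SL(2, ℝ)) * (h * k) :=
    continuous_const.mul (continuous_const.mul continuous_id)
  have e : ∀ i j, Continuous fun k : SL(2, ℝ) => (y⁻¹ * (γ : SL(2, ℝ)) * (h * k)).1 i j :=
    fun i j => (SS1_ent i j).comp hm
  unfold bq
  exact ((isClosed_le ((e 0 0).sub continuous_const).abs continuous_const).inter
    ((isClosed_le ((e 1 1).sub continuous_const).abs continuous_const).inter
    ((isClosed_le (e 0 1).abs continuous_const).inter (isClosed_le (e 1 0).abs continuous_const))))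

theorem SS1_one (hDYA : DYA_stmt) (f : SL(2, ℝ) → ℝ) (S : Set SL(2, ℝ)) (K A B lam : ℝ)
    (hS : MeasurableSet S) (hK : 0 ≤ K) (hA : 0 ≤ A) (hB : 0 ≤ B) (hlam : 0 < lam)
    (hf : ∀ k, f k ≤ K * (1 / (1 + lam * |k.1 1 0|) ^ 2))
    (hf3 : ∀ k, f k ≠ 0 → ∀ i j, |k.1 i j| ≤ 3)
    (hm : ∀ ρ : ℝ, 0 < ρ → mG {k : SL(2, ℝ) | (∀ i j, |k.1 i j| ≤ 3) ∧ |k.1 1 0| ≤ ρ ∧ k ∈ S} ≤
      ENNReal.ofReal (A + B * ρ)) :
    ∫⁻ k in S, ENNReal.ofReal (f k) ∂mG ≤ ENNReal.ofReal K * ENNReal.ofReal (16 * (A + B / lam)) := by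
  have hE3 := SS1_E3
  have h1 : ∫⁻ k in S, ENNReal.ofReal (f k) ∂mG ≤
      ∫⁻ k in S, ({k : SL(2, ℝ) | ∀ i j, |k.1 i j| ≤ 3}.indicator
        (fun k => ENNReal.ofReal K * ENNReal.ofReal (1 / (1 + lam * |k.1 1 0|) ^ 2))) k ∂mG := by
    refine lintegral_mono fun k => ?_
    by_cases hk : f k = 0
    · rw [hk, ENNReal.ofReal_zero]
      exact zero_le
    · rw [indicator_of_mem (show k ∈ {k : SL(2, ℝ) | ∀ i j, |k.1 i j| ≤ 3} from hf3 k hk),
        ← ENNReal.ofReal_mul hK]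
      exact ENNReal.ofReal_le_ofReal (hf k)
  refine h1.trans ?_
  rw [setLIntegral_indicator hE3, lintegral_const_mul' _ _ ENNReal.ofReal_ne_top]
  refine mul_le_mul_right ?_ _
  refine hDYA _ mG (fun k => |k.1 1 0|) _ A B lam ((SS1_ent 1 0).abs.measurable) (fun k => abs_nonneg _)
    (hE3.inter hS) hA hB hlam ?_
  intro ρ hρ
  refine le_trans (measure_mono ?_) (hm ρ hρ)
  rintro k ⟨⟨k1, k2⟩, k3⟩
  exact ⟨k1, k3, k2⟩

theorem SS1_proof (hCNV : CNV_stmt) (hDYA : DYA_stmt) (hOSC : OSC_stmt) (hGKF : GKF_stmt) : SS1_stmt := by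
  intro Γ β0 α0 β α hΓ hβ0 hα0 hβ hα
  have hc := SS1_count Γ hΓ
  obtain ⟨C1, hC1, h1⟩ := hOSC β0 α0 β α hβ0 hα0 hβ hα
  obtain ⟨a0, ha0, -, h2⟩ := hCNV Γ hΓ
  obtain ⟨C2, hC2, h2⟩ := h2 3 (by norm_num)
  refine ⟨a0, 16 * C1 * C2, ha0, by positivity, ?_⟩
  intro a T r X U A h ha haa hT hr hX hU hXU
  have hE : 0 < Real.exp (-T) := Real.exp_pos _
  have hE2 : 0 < Real.exp (-(T / 2)) := Real.exp_pos _
  have hlam : 0 < Real.exp (-T) * r := mul_pos hE (by linarith)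
  have key : ∀ y : SL(2, ℝ), ∫⁻ k in {k : SL(2, ℝ) | ∃ γ : Γ, bq a (a * X) (a * U) (y⁻¹ * (γ : SL(2, ℝ)) * (h * k))},
      ENNReal.ofReal ‖gk r (pc (st (-T) β0) α0) (pc β α) k‖ ∂mG ≤
      ENNReal.ofReal (C1 * Real.exp (-(T / 2))) *
        ENNReal.ofReal (16 * (C2 * U + C2 * U * X / (Real.exp (-T) * r))) := by
    intro y
    refine SS1_one hDYA (fun k => ‖gk r (pc (st (-T) β0) α0) (pc β α) k‖) _ _ _ _ _ (SS1_sheet Γ hc _ _ _ y h)
      (by positivity) (by positivity) (by positivity) hlam ?_ ?_ ?_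
    · intro k
      have := h1 T r k hT hr
      rw [mul_one_div]
      exact this
    · intro k hk
      exact (hGKF β0 α0 β α T r k hβ0 hα0 hβ hα hT hr).1 (fun h0 => hk (by
        change ‖gk r (pc (st (-T) β0) α0) (pc β α) k‖ = 0
        rw [h0, norm_zero]))
    · intro ρ hρ
      have := h2 a X U ρ y h ha haa hX hU hXU hρ
      have e1 : C2 * U * (1 + ρ * X) = C2 * U + C2 * U * X * ρ := by ring
      rw [e1] at this
      exact this
  have hsub : {k : SL(2, ℝ) | ∃ y ∈ A, ∃ γ : Γ, bq a (a * X) (a * U) (y⁻¹ * (γ : SL(2, ℝ)) * (h * k))} ⊆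
      ⋃ y : A, {k : SL(2, ℝ) | ∃ γ : Γ, bq a (a * X) (a * U) ((y : SL(2, ℝ))⁻¹ * (γ : SL(2, ℝ)) * (h * k))} := by
    rintro k ⟨y, hy, hk⟩
    exact mem_iUnion.2 ⟨⟨y, hy⟩, hk⟩
  have e2 : C2 * U * X / (Real.exp (-T) * r) = C2 * U * X * Real.exp T / r := by
    rw [Real.exp_neg]
    field_simp
  calc ∫⁻ k in {k : SL(2, ℝ) | ∃ y ∈ A, ∃ γ : Γ, bq a (a * X) (a * U) (y⁻¹ * (γ : SL(2, ℝ)) * (h * k))},
      ENNReal.ofReal ‖gk r (pc (st (-T) β0) α0) (pc β α) k‖ ∂mG ≤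
      ∫⁻ k in ⋃ y : A, {k : SL(2, ℝ) | ∃ γ : Γ, bq a (a * X) (a * U) ((y : SL(2, ℝ))⁻¹ * (γ : SL(2, ℝ)) * (h * k))},
      ENNReal.ofReal ‖gk r (pc (st (-T) β0) α0) (pc β α) k‖ ∂mG := lintegral_mono_set hsub
    _ ≤ ∑' y : A, ∫⁻ k in {k : SL(2, ℝ) | ∃ γ : Γ, bq a (a * X) (a * U) ((y : SL(2, ℝ))⁻¹ * (γ : SL(2, ℝ)) * (h * k))},
      ENNReal.ofReal ‖gk r (pc (st (-T) β0) α0) (pc β α) k‖ ∂mG := lintegral_iUnion_le _ _
    _ ≤ ∑' y : A, ENNReal.ofReal (C1 * Real.exp (-(T / 2))) *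
        ENNReal.ofReal (16 * (C2 * U + C2 * U * X / (Real.exp (-T) * r))) :=
        ENNReal.tsum_le_tsum fun y => key y
    _ = (A.card : ENNReal) * (ENNReal.ofReal (C1 * Real.exp (-(T / 2))) *
        ENNReal.ofReal (16 * (C2 * U + C2 * U * X / (Real.exp (-T) * r)))) := by
        rw [tsum_fintype, Finset.sum_const, nsmul_eq_mul, Finset.card_univ, Fintype.card_coe]
    _ = ENNReal.ofReal (16 * C1 * C2 * A.card * Real.exp (-(T / 2)) * U * (1 + X * Real.exp T / r)) := by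
        rw [← ENNReal.ofReal_mul (by positivity), ← ENNReal.ofReal_natCast, ← ENNReal.ofReal_mul (by positivity), e2]
        congr 1
        ring

end Pool.Agent.MS
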